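import Mathlib

set_option autoImplicit false
set_option maxHeartbeats 400000

namespace Pool.Agent.Results.MP_8cf907_al.Classical

open Finset

def Magic {X A : Type} [Fintype X] [CStarAlgebra A] (u : X → X → A) : Prop :=
  (∀ i j, star (u i j) = u i j ∧ u i j * u i j = u i j) ∧
  (∀ i, ∑ j, u i j = 1) ∧ (∀ j, ∑ i, u i j = 1)

def Rel {V A : Type} [Fintype V] [DecidableEq V] [CStarAlgebra A] (u : V → V → A)
    (w : Finset V × Finset V → Finset V × Finset V → A) : Prop :=
  Magic u ∧ Magic w ∧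
  (∀ v f, ∑ e with v ∈ e.1, w e f = ∑ x ∈ f.1, u v x) ∧
  (∀ v f, ∑ e with v ∈ e.2, w e f = ∑ x ∈ f.2, u v x)

def cu {V : Type} [DecidableEq V] (i j : V) : Equiv.Perm V → ℂ :=
  fun σ => if σ j = i then 1 else 0

def cw {V : Type} [DecidableEq V] (e f : Finset V × Finset V) : Equiv.Perm V → ℂ :=
  fun σ => if (f.1.image σ, f.2.image σ) = e then 1 else 0

lemma orth {X A : Type} [Fintype X] [CStarAlgebra A] (p : X → A)
    (hp : ∀ i, star (p i) = p i ∧ p i * p i = p i) (hs : ∑ i, p i = 1) {i j : X} (hij : j ≠ i) :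
    p j * p i = 0 := by
  classical
  let := CStarAlgebra.spectralOrder A
  have := CStarAlgebra.spectralOrderedRing A
  have h1 : ∑ k ∈ univ.erase i, star (p k * p i) * (p k * p i) = 0 := by
    have e : ∀ k, star (p k * p i) * (p k * p i) = p i * p k * p i := fun k => by
      rw [star_mul, (hp k).1, (hp i).1, mul_assoc, ← mul_assoc (p k), (hp k).2, mul_assoc]
    simp only [e]
    have : ∑ k, p i * p k * p i = p i := by
      rw [← sum_mul, ← mul_sum, hs, mul_one, (hp i).2]
    rw [← add_sum_erase _ _ (mem_univ i), (hp i).2, (hp i).2] at this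
    exact add_eq_left.1 this
  have h2 := (sum_eq_zero_iff_of_nonneg (fun k _ => star_mul_self_nonneg (p k * p i))).1 h1 j
    (by simp [hij])
  exact (CStarRing.star_mul_self_eq_zero_iff _).1 h2

lemma comm_of_sum {X A : Type} [Fintype X] [CStarAlgebra A] (p : X → A)
    (hp : ∀ i, star (p i) = p i ∧ p i * p i = p i) (hs : ∑ i, p i = 1) (S T : Finset X) :
    Commute (∑ i ∈ S, p i) (∑ i ∈ T, p i) := by
  refine Commute.sum_left _ _ _ fun i _ => Commute.sum_right _ _ _ fun j _ => ?_
  by_cases h : i = j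
  · rw [h]
  · change _ = _
    rw [orth p hp hs h, orth p hp hs (Ne.symm h)]

variable {V A : Type} [Fintype V] [DecidableEq V] [CStarAlgebra A]

lemma u_comm {u : V → V → A} {w : Finset V × Finset V → Finset V × Finset V → A} (h : Rel u w)
    (a b c d : V) : Commute (u a b) (u c d) := by
  have h1 := h.2.2.1 a ({b}, {d})
  have h2 := h.2.2.2 c ({b}, {d})
  simp only [sum_singleton] at h1 h2
  rw [← h1, ← h2]
  exact comm_of_sum (fun e => w e _) (fun e => h.2.1.1 e _) (h.2.1.2.2 _) _ _

lemma sum_mul_proj {X : Type} [Fintype X] [DecidableEq X] (p : X → A)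
    (hp : ∀ i, star (p i) = p i ∧ p i * p i = p i) (hs : ∑ i, p i = 1) (S : Finset X) (i : X) :
    (∑ j ∈ S, p j) * p i = if i ∈ S then p i else 0 := by
  rw [sum_mul]
  split_ifs with hi
  · rw [sum_eq_single i (fun j _ hj => orth p hp hs hj) (fun h' => absurd hi h')]
    exact (hp i).2
  · exact sum_eq_zero fun j hj => orth p hp hs (fun e => hi (e ▸ hj))

lemma exists_pi {u : V → V → A} (hu : Magic u) (hc : ∀ a b c d, Commute (u a b) (u c d)) :
    ∃ π : Equiv.Perm V → A, (∀ σ, star (π σ) = π σ) ∧ ∑ σ, π σ = 1 ∧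
      (∀ σ i j, π σ * u i j = if σ j = i then π σ else 0) ∧
      (∀ σ τ, π σ * π τ = if σ = τ then π σ else 0) := by
  let S : Set A := {a | ∃ i j, u i j = a}
  have hS : ∀ a ∈ S, ∀ b ∈ S, a * b = b * a := by
    rintro _ ⟨i, j, rfl⟩ _ ⟨k, l, rfl⟩
    exact hc i j k l
  let R := Subring.closure S
  let _ : CommRing R := Subring.closureCommRingOfComm hS
  let U : V → V → R := fun i j => ⟨u i j, Subring.subset_closure ⟨i, j, rfl⟩⟩
  have Uid : ∀ i j, U i j * U i j = U i j := fun i j => Subtype.ext (hu.1 i j).2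
  have Ucol : ∀ i k j, i ≠ k → U i j * U k j = 0 := fun i k j h =>
    Subtype.ext (orth (fun i => u i j) (fun i => hu.1 i j) (hu.2.2 j) h)
  have Urow : ∀ i j k, j ≠ k → U i j * U i k = 0 := fun i j k h =>
    Subtype.ext (orth (fun j => u i j) (fun j => hu.1 i j) (hu.2.1 i) h)
  have Usum : ∀ j, ∑ i, U i j = 1 := fun j => Subtype.ext (by simpa [U] using hu.2.2 j)
  let P : (V → V) → R := fun s => ∏ v, U (s v) v
  have hP : ∀ s i j, P s * U i j = if s j = i then P s else 0 := by
    intro s i j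
    have e : P s = (∏ v ∈ univ.erase j, U (s v) v) * U (s j) j :=
      (prod_erase_mul _ _ (mem_univ j)).symm
    rw [e, mul_assoc]
    split_ifs with h
    · rw [← h, Uid]
    · rw [Ucol _ _ _ h, mul_zero]
  have hP0 : ∀ s : V → V, ¬ Function.Injective s → P s = 0 := by
    intro s hs
    obtain ⟨a, b, hab, hne⟩ := Function.not_injective_iff.1 hs
    have h1 := hP s (s a) a
    have h2 := hP s (s a) b
    rw [if_pos rfl] at h1
    rw [if_pos hab.symm] at h2
    rw [← h2, ← h1, mul_assoc, Urow _ _ _ hne, mul_zero]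
  have hsum : ∑ σ : Equiv.Perm V, P σ = 1 := by
    have h1 : ∑ s : V → V, P s = 1 := by
      have := Finset.prod_univ_sum (fun _ : V => (univ : Finset V)) (fun v i => U i v)
      simp only [Usum, prod_const_one, Fintype.piFinset_univ] at this
      exact this.symm
    rw [← h1]
    refine sum_of_injOn (fun σ : Equiv.Perm V => (σ : V → V)) (fun a _ b _ h => Equiv.ext (congrFun h))
      (fun _ _ => mem_univ _) (fun s _ hs => hP0 s fun hi => hs ?_) (fun _ _ => rfl)
    exact ⟨Equiv.ofBijective s (Finite.injective_iff_bijective.1 hi), by simp, rfl⟩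
  refine ⟨fun σ => P σ, fun σ => ?_, by simpa using congrArg Subtype.val hsum, fun σ i j => ?_,
    fun σ τ => ?_⟩
  · refine Finset.prod_induction _ (fun x : R => star (x : A) = x) (fun a b ha hb => ?_)
      (by simp) (fun v _ => (hu.1 _ _).1)
    rw [Subring.coe_mul, star_mul, ha, hb, ← Subring.coe_mul, mul_comm, Subring.coe_mul]
  · have := congrArg Subtype.val (hP σ i j)
    split_ifs at this ⊢ <;> simpa using this
  · have : P σ * P τ = if σ = τ then P σ else 0 := by
      split_ifs with h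
      · subst h
        exact Finset.prod_induction _ (fun x : R => P σ * x = P σ)
          (fun a b ha hb => by rw [← mul_assoc, ha, hb]) (mul_one _)
          (fun v _ => by rw [hP, if_pos rfl])
      · obtain ⟨v, hv⟩ : ∃ v, σ v ≠ τ v := by
          by_contra hn
          exact h (Equiv.ext fun v => by_contra fun hv => hn ⟨v, hv⟩)
        have h1 := hP τ (τ v) v
        rw [if_pos rfl] at h1
        rw [← h1, mul_comm (P τ), ← mul_assoc, hP, if_neg hv, zero_mul]
    have := congrArg Subtype.val this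
    split_ifs at this ⊢ <;> simpa using this

lemma rel_cl : Rel (cu (V := V)) cw := by
  refine ⟨⟨fun i j => ⟨?_, ?_⟩, fun i => ?_, fun j => ?_⟩, ⟨fun i j => ⟨?_, ?_⟩, fun e => ?_,
    fun f => ?_⟩, fun v f => ?_, fun v f => ?_⟩
  · ext σ; simp only [cu, Pi.star_apply]; split_ifs <;> simp
  · ext σ; simp only [cu, Pi.mul_apply]; split_ifs <;> simp
  · ext σ; simp [cu, Finset.sum_apply, Equiv.apply_eq_iff_eq_symm_apply]
  · ext σ; simp [cu, Finset.sum_apply]
  · ext σ; simp only [cw, Pi.star_apply]; split_ifs <;> simp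
  · ext σ; simp only [cw, Pi.mul_apply]; split_ifs <;> simp
  · ext σ
    simp only [cw, Finset.sum_apply, Pi.one_apply]
    rw [sum_eq_single (e.1.image σ.symm, e.2.image σ.symm)]
    · simp [Finset.image_image]
    · intro f _ hf
      rw [if_neg]
      rintro rfl
      simp [Finset.image_image] at hf
    · simp
  · ext σ; simp [cw, Finset.sum_apply]
  · ext σ
    simp only [cw, cu, Finset.sum_apply, sum_ite_eq, mem_filter, mem_univ, true_and,
      Equiv.apply_eq_iff_eq_symm_apply, sum_ite_eq', mem_image]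
    simp
  · ext σ
    simp only [cw, cu, Finset.sum_apply, sum_ite_eq, mem_filter, mem_univ, true_and,
      Equiv.apply_eq_iff_eq_symm_apply, sum_ite_eq', mem_image]
    simp

lemma univ_prop {u : V → V → A} {w : Finset V × Finset V → Finset V × Finset V → A} (h : Rel u w) :
    ∃! φ : (Equiv.Perm V → ℂ) →⋆ₐ[ℂ] A,
      (∀ i j, φ (cu i j) = u i j) ∧ ∀ e f, φ (cw e f) = w e f := by
  obtain ⟨π, hst, hsum, hπu, hππ⟩ := exists_pi h.1 (u_comm h)
  have hexp : ∀ a : A, a = ∑ σ, π σ * a := fun a => by rw [← sum_mul, hsum, one_mul]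
  have hπp : ∀ σ v (Y : Finset V), π σ * ∑ x ∈ Y, u v x = if v ∈ Y.image σ then π σ else 0 := by
    intro σ v Y
    simp only [mul_sum, hπu, Equiv.apply_eq_iff_eq_symm_apply, sum_ite_eq', mem_image]
    simp
  have hz : ∀ σ e f, (f.1.image σ, f.2.image σ) ≠ e → π σ * w e f = 0 := by
    intro σ e f hne
    have gen : ∀ (v : V) (S : Finset (Finset V × Finset V)) (Y : Finset V),
        ∑ e ∈ S, w e f = ∑ x ∈ Y, u v x → ¬ (v ∈ Y.image σ ↔ e ∈ S) → π σ * w e f = 0 := by
      intro v S Y hS hn
      have h1 := sum_mul_proj (fun e => w e f) (fun e => h.2.1.1 e _) (h.2.1.2.2 f) S e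
      have h2 := hπp σ v Y
      rw [← hS] at h2
      by_cases he : e ∈ S
      · rw [if_pos he] at h1
        rw [if_neg (by tauto)] at h2
        rw [← h1, ← mul_assoc, h2, zero_mul]
      · rw [if_neg he] at h1
        rw [if_pos (by tauto)] at h2
        rw [← h2, mul_assoc, h1, mul_zero]
    by_contra hc
    refine hne (Prod.ext (Finset.ext fun v => ?_) (Finset.ext fun v => ?_))
    · by_contra hn
      exact hc (gen v _ _ (h.2.2.1 v f) (by simpa using hn))
    · by_contra hn
      exact hc (gen v _ _ (h.2.2.2 v f) (by simpa using hn))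
  have hw : ∀ σ e f, π σ * w e f = if (f.1.image σ, f.2.image σ) = e then π σ else 0 := by
    intro σ e f
    split_ifs with he
    · have : π σ * ∑ e, w e f = π σ := by rw [h.2.1.2.2 f, mul_one]
      rwa [mul_sum, sum_eq_single e (fun b _ hb => hz σ b f (he ▸ hb.symm)) (by simp)] at this
    · exact hz σ e f he
  let φ : (Equiv.Perm V → ℂ) →⋆ₐ[ℂ] A :=
    { toFun := fun F => ∑ σ, F σ • π σ
      map_one' := by simpa using hsum
      map_mul' := fun F G => by
        simp only [sum_mul_sum, smul_mul_smul_comm, hππ, smul_ite, smul_zero, sum_ite_eq,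
          mem_univ, if_true, Pi.mul_apply]
      map_zero' := by simp
      map_add' := fun F G => by simp [add_smul, sum_add_distrib]
      commutes' := fun c => by
        simp [Algebra.algebraMap_eq_smul_one, ← smul_sum, hsum]
      map_star' := fun F => by simp [star_sum, hst] }
  refine ⟨φ, ⟨fun i j => ?_, fun e f => ?_⟩, fun ψ hψ => ?_⟩
  · rw [hexp (u i j)]
    change ∑ σ, cu i j σ • π σ = _
    simp [cu, hπu]
  · rw [hexp (w e f)]
    change ∑ σ, cw e f σ • π σ = _
    simp [cw, hw]
  · have hu : ∀ i j, φ (cu i j) = u i j := fun i j => by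
      rw [hexp (u i j)]
      change ∑ σ, cu i j σ • π σ = _
      simp [cu, hπu]
    have hd : ∀ σ : Equiv.Perm V, ψ (Pi.single σ 1) = φ (Pi.single σ 1) := by
      intro σ
      have : (Pi.single σ 1 : Equiv.Perm V → ℂ) = ∏ v, cu (σ v) v := by
        ext τ
        simp only [cu, Finset.prod_apply, prod_boole, mem_univ, forall_true_left, Pi.single_apply,
          Equiv.ext_iff]
      rw [this]
      exact Finset.prod_induction _ (fun x => ψ x = φ x)
        (fun a b ha hb => by rw [map_mul, map_mul, ha, hb]) (by rw [map_one, map_one])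
        (fun v _ => by rw [hψ.1, hu])
    ext F
    rw [pi_eq_sum_univ' F]
    simp only [map_sum, map_smul, hd]

open scoped Matrix.Norms.L2Operator in
lemma noncomm (hV : 4 ≤ Fintype.card V) : ∃ u : V → V → Matrix (Fin 2) (Fin 2) ℂ, Magic u ∧
    ∃ a c, ¬ Commute (u a a) (u c c) := by
  obtain ⟨k⟩ := Function.Embedding.nonempty_of_card_le (α := Fin 4) (β := V) (by simpa using hV)
  let p : Matrix (Fin 2) (Fin 2) ℂ := !![1, 0; 0, 0]
  let q : Matrix (Fin 2) (Fin 2) ℂ := !![1 / 2, 1 / 2; 1 / 2, 1 / 2]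
  let τ : Equiv.Perm V := Equiv.swap (k 0) (k 1) * Equiv.swap (k 2) (k 3)
  let P : V → Matrix (Fin 2) (Fin 2) ℂ := fun j => if j = k 0 ∨ j = k 1 then p else q
  have ne : ∀ i j, k i = k j ↔ i = j := fun i j => k.injective.eq_iff
  have hτ : ∀ j, P (τ j) = P j := by
    intro j
    have : (τ j = k 0 ∨ τ j = k 1) ↔ (j = k 0 ∨ j = k 1) := by
      simp only [τ, Equiv.Perm.mul_apply, Equiv.swap_apply_def]
      have := ne 0 1; have := ne 0 2; have := ne 0 3; have := ne 1 2; have := ne 1 3
      have := ne 2 3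
      grind
    simp only [P, this]
  have hp : star p = p ∧ p * p = p := by
    constructor <;> ext i j <;> fin_cases i <;> fin_cases j <;> simp [p]
  have hq : star q = q ∧ q * q = q := by
    constructor <;> ext i j <;> fin_cases i <;> fin_cases j <;> simp [q] <;> norm_num
  have hP : ∀ j, star (P j) = P j ∧ P j * P j = P j := fun j => by
    simp only [P]; split_ifs; exacts [hp, hq]
  refine ⟨fun i j => (if i = j then P j else 0) + (if i = τ j then 1 - P j else 0),
    ⟨fun i j => ?_, fun i => ?_, fun j => ?_⟩, k 0, k 2, fun hc => ?_⟩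
  · beta_reduce
    split_ifs <;> simp [(hP j).1, (hP j).2, mul_sub, sub_mul]
  · have : ∀ j, (i = τ j) = (τ.symm i = j) := fun j => by simp [Equiv.symm_apply_eq]
    have h2 := hτ (τ.symm i)
    rw [Equiv.apply_symm_apply] at h2
    simp [sum_add_distrib, this, ← h2]
  · simp [sum_add_distrib]
  · have h0 : ¬ k 0 = τ (k 0) := by simp [τ, Equiv.swap_apply_def, ne]
    have h2 : ¬ k 2 = τ (k 2) := by simp [τ, Equiv.swap_apply_def, ne]
    have := congrFun (congrFun hc.eq 0) 1
    simp [h0, h2, P, ne, p, q] at this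

open scoped Matrix.Norms.L2Operator in
theorem result (V : Type) [Fintype V] [DecidableEq V] :
    (Rel (cu (V := V)) cw ∧ ∀ (A : Type) [CStarAlgebra A] (u : V → V → A)
      (w : Finset V × Finset V → Finset V × Finset V → A), Rel u w →
      ∃! φ : (Equiv.Perm V → ℂ) →⋆ₐ[ℂ] A,
        (∀ i j, φ (cu i j) = u i j) ∧ ∀ e f, φ (cw e f) = w e f) ∧
    (4 ≤ Fintype.card V → ∀ (C : Type) [CStarAlgebra C] (u : V → V → C),
      (∀ (B : Type) [CStarAlgebra B] (u' : V → V → B), Magic u' →
        ∃ φ : C →⋆ₐ[ℂ] B, ∀ i j, φ (u i j) = u' i j) →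
      ¬ ∃ w, Rel u w) := by
  refine ⟨⟨rel_cl, fun A _ u w h => univ_prop h⟩, fun hV C _ u hu ⟨w, h⟩ => ?_⟩
  obtain ⟨u', hu', a, c, hn⟩ := noncomm hV
  obtain ⟨φ, hφ⟩ := hu _ u' hu'
  exact hn (hφ a a ▸ hφ c c ▸ (u_comm h a a c c).map φ)

end Pool.Agent.Results.MP_8cf907_al.Classical
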